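import Mathlib
import Pool.Agent.W289.SL.Defs

set_option autoImplicit false

/-!
# The Iwasawa logarithm near `1`
-/

namespace Pool.Agent.W289.SL

open Filter

variable {p : ℕ} [hp : Fact p.Prime]

lemma norm_p : ‖((p : ℕ) : ℂ_[p])‖ = (p : ℝ)⁻¹ := by
  have h := norm_algebraMap' ℂ_[p] ((p : ℕ) : ℚ_[p])
  rw [map_natCast, Padic.norm_p] at h
  exact h

lemma norm_natCast_eq (n : ℕ) : ‖(n : ℂ_[p])‖ = ‖(n : ℚ_[p])‖ := by
  have h := norm_algebraMap' ℂ_[p] ((n : ℕ) : ℚ_[p])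
  rw [map_natCast] at h
  exact h

lemma norm_intCast_le (n : ℤ) : ‖(n : ℂ_[p])‖ ≤ 1 := by
  have h := norm_algebraMap' ℂ_[p] ((n : ℤ) : ℚ_[p])
  rw [map_intCast] at h
  rw [h]
  exact Padic.norm_int_le_one n

lemma norm_natCast_le (n : ℕ) : ‖(n : ℂ_[p])‖ ≤ 1 := by
  have := norm_intCast_le (p := p) (n : ℤ)
  exact_mod_cast this

lemma one_le_norm_natCast (n : ℕ) (hn : n ≠ 0) : 1 ≤ ‖(n : ℂ_[p])‖ * n := by
  rw [norm_natCast_eq]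
  have h1 := Padic.norm_eq_zpow_neg_valuation (p := p) (x := (n : ℚ_[p])) (by exact_mod_cast hn)
  rw [h1, Padic.valuation_natCast, zpow_neg, zpow_natCast]
  have h2 : (p : ℝ) ^ padicValNat p n ≤ n := by
    exact_mod_cast Nat.le_of_dvd (Nat.pos_of_ne_zero hn) (pow_padicValNat_dvd)
  have h3 : (0 : ℝ) < (p : ℝ) ^ padicValNat p n := by
    have := hp.out.pos
    positivity
  rw [inv_mul_eq_div, le_div_iff₀ h3, one_mul]
  exact h2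

lemma half_le_norm_two : (1 : ℝ) / 2 ≤ ‖(2 : ℂ_[p])‖ := by
  have := one_le_norm_natCast (p := p) 2 (by norm_num)
  push_cast at this
  linarith

lemma norm_two_le : ‖(2 : ℂ_[p])‖ ≤ 1 := by
  have := norm_natCast_le (p := p) 2
  exact_mod_cast this

lemma aux_pow (n : ℕ) : n + 2 ≤ 2 * 8 ^ n := by
  induction n with
  | zero => norm_num
  | succ n ih =>
    rw [pow_succ]
    omega

variable {L : ℂ_[p] → ℂ_[p]} (hL : IsIwasawaLog p L)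

include hL

theorem IsIwasawaLog.one : L 1 = 0 := by
  have h := hL.mul 1 1 one_ne_zero one_ne_zero
  rw [mul_one] at h
  exact left_eq_add.1 h

theorem IsIwasawaLog.pow {x : ℂ_[p]} (hx : x ≠ 0) (n : ℕ) : L (x ^ n) = n * L x := by
  induction n with
  | zero => simp [hL.one]
  | succ n ih =>
    rw [pow_succ, hL.mul _ _ (pow_ne_zero _ hx) hx, ih]
    push_cast
    ring

theorem IsIwasawaLog.inv {x : ℂ_[p]} (hx : x ≠ 0) : L x⁻¹ = -L x := by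
  have h := hL.mul x x⁻¹ hx (inv_ne_zero hx)
  rw [mul_inv_cancel₀ hx, hL.one] at h
  exact (neg_eq_of_add_eq_zero_right h.symm).symm

theorem IsIwasawaLog.div {x y : ℂ_[p]} (hx : x ≠ 0) (hy : y ≠ 0) : L (x / y) = L x - L y := by
  rw [div_eq_mul_inv, hL.mul _ _ hx (inv_ne_zero hy), hL.inv hy, sub_eq_add_neg]

theorem IsIwasawaLog.neg_one : L (-1) = 0 := by
  have h := hL.pow (x := -1) (by norm_num) 2
  rw [neg_one_sq, hL.one] at h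
  push_cast at h
  rcases mul_eq_zero.1 h.symm with h | h
  · exact absurd h two_ne_zero
  · exact h

theorem IsIwasawaLog.neg {x : ℂ_[p]} (hx : x ≠ 0) : L (-x) = L x := by
  rw [← neg_one_mul, hL.mul _ _ (by norm_num) hx, hL.neg_one, zero_add]

theorem IsIwasawaLog.approx {z : ℂ_[p]} (hz : ‖z‖ ≤ 1 / 8) :
    ‖L (1 + z) - z‖ ≤ 2 * ‖z‖ ^ 2 := by
  have hz1 : ‖z‖ < 1 := lt_of_le_of_lt hz (by norm_num)
  have h1 := (hasSum_nat_add_iff' 1).2 (hL.ser z hz1)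
  have h2 : L (1 + z) - ∑ i ∈ Finset.range 1, (-1 : ℂ_[p]) ^ i * z ^ (i + 1) /
      ((i : ℂ_[p]) + 1) = L (1 + z) - z := by simp
  rw [h2] at h1
  rw [← h1.tsum_eq]
  apply IsUltrametricDist.norm_tsum_le_of_forall_le_of_nonneg (by positivity)
  intro n
  rw [norm_div, norm_mul, norm_pow, norm_neg, norm_one, one_pow, one_mul, norm_pow]
  have h3 := one_le_norm_natCast (p := p) (n + 2) (by omega)
  have h4 : ((n + 1 : ℕ) : ℂ_[p]) + 1 = ((n + 2 : ℕ) : ℂ_[p]) := by push_cast; ring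
  rw [h4]
  have hpos : 0 < ‖((n + 2 : ℕ) : ℂ_[p])‖ := by
    rw [norm_pos_iff]
    exact_mod_cast (by omega : n + 2 ≠ 0)
  rw [div_le_iff₀ hpos]
  have h5 : ‖z‖ ^ n * ((n + 2 : ℕ) : ℝ) ≤ 2 := by
    have h6 : ‖z‖ ^ n ≤ (1 / 8) ^ n := pow_le_pow_left₀ (norm_nonneg _) hz n
    have h7 : ((n + 2 : ℕ) : ℝ) ≤ 2 * 8 ^ n := by
      have := aux_pow n
      exact_mod_cast this
    calc ‖z‖ ^ n * ((n + 2 : ℕ) : ℝ) ≤ (1 / 8) ^ n * (2 * 8 ^ n) := by gcongr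
      _ = 2 := by rw [one_div, inv_pow]; field_simp
  calc ‖z‖ ^ (n + 1 + 1) = ‖z‖ ^ 2 * ‖z‖ ^ n * 1 := by ring
    _ ≤ ‖z‖ ^ 2 * ‖z‖ ^ n * (‖((n + 2 : ℕ) : ℂ_[p])‖ * ((n + 2 : ℕ) : ℝ)) := by gcongr
    _ = (‖z‖ ^ n * ((n + 2 : ℕ) : ℝ)) * (‖z‖ ^ 2 * ‖((n + 2 : ℕ) : ℂ_[p])‖) := by ring
    _ ≤ 2 * (‖z‖ ^ 2 * ‖((n + 2 : ℕ) : ℂ_[p])‖) := by gcongr
    _ = 2 * ‖z‖ ^ 2 * ‖((n + 2 : ℕ) : ℂ_[p])‖ := by ring

end Pool.Agent.W289.SL
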