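import Mathlib
import Pool.Agent.W289.SL.Defs
import Pool.Agent.H637R2.Leo.Split

set_option autoImplicit false

/-!
# The choice of the quadratic extension
-/

namespace Pool.Agent.W289.SL

open NumberField IsDedekindDomain WithZero

/-- an automorphism on the ring of integers -/
noncomputable def conjO {K : Type} [Field K] (c : K →+* K) : 𝓞 K →+* 𝓞 K :=
  RingOfIntegers.mapRingHom c

lemma conjO_coe {K : Type} [Field K] (c : K →+* K) (x : 𝓞 K) : ((conjO c x : 𝓞 K) : K) = c x := rfl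

/-- in a quotient by a nonzero element, units have finite order -/
lemma exists_pow_dvd {K : Type} [Field K] [NumberField K] (u : (𝓞 K)ˣ) (m : 𝓞 K) (hm : m ≠ 0) :
    ∃ n : ℕ, n ≠ 0 ∧ m ∣ 1 - ((u ^ n : (𝓞 K)ˣ) : 𝓞 K) := by
  have hfin : Finite (𝓞 K ⧸ Ideal.span {m}) :=
    Ideal.finiteQuotientOfFreeOfNeBot _ (by rwa [Ne, Ideal.span_singleton_eq_bot])
  have : Fintype (𝓞 K ⧸ Ideal.span {m})ˣ := Fintype.ofFinite _
  refine ⟨Fintype.card (𝓞 K ⧸ Ideal.span {m})ˣ, Fintype.card_ne_zero, ?_⟩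
  have h1 := pow_card_eq_one (x := Units.map (Ideal.Quotient.mk (Ideal.span {m})).toMonoidHom u)
  rw [← Ideal.mem_span_singleton, ← Ideal.Quotient.eq_zero_iff_mem, map_sub, map_one]
  have h2 := congrArg (fun x : (𝓞 K ⧸ Ideal.span {m})ˣ => (x : 𝓞 K ⧸ Ideal.span {m})) h1
  simp only [Units.val_pow_eq_pow_val, Units.val_one] at h2
  rw [Units.val_pow_eq_pow_val, map_pow]
  rw [sub_eq_zero]
  exact h2.symm

section

variable {K : Type} [Field K] [NumberField K]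

lemma val_natCast (v : HeightOneSpectrum (𝓞 K)) (x : 𝓞 K) (h : x ∉ v.asIdeal) :
    v.intValuation x = 1 := by
  have h1 := v.intValuation_le_one x
  have h2 : ¬ v.intValuation x < 1 := by rwa [v.intValuation_lt_one_iff_mem]
  exact le_antisymm h1 (not_lt.1 h2)

/-- an element of odd valuation is not a square -/
lemma not_isSquare_of_val (v : HeightOneSpectrum (𝓞 K)) (x : K)
    (h : v.valuation K x = exp (-1 : ℤ)) : ¬ IsSquare x := by
  rintro ⟨y, rfl⟩
  rw [map_mul] at h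
  have hy : v.valuation K y ≠ 0 := by
    intro h0
    rw [h0, mul_zero] at h
    exact absurd h.symm (by simp)
  obtain ⟨a, ha⟩ : ∃ a : ℤ, v.valuation K y = exp a := by
    exact ⟨(v.valuation K y).log, (exp_log hy).symm⟩
  rw [ha, ← exp_add, exp_inj] at h
  omega

/-- **The choice of `α`.** -/
theorem exists_alpha (c : K →+* K) (hc : ∃ z, c z ≠ z)
    (N : ℕ) (hN : N ≠ 0) (T : Finset K) (hT : (0 : K) ∉ T)
    (η : (𝓞 K)ˣ) :
    ∃ (x δ : 𝓞 K) (n : ℕ), n ≠ 0 ∧ x ≠ 0 ∧ 4 * x * δ = 1 - ((η ^ n : (𝓞 K)ˣ) : 𝓞 K) ∧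
      (∃ y : 𝓞 K, x = (N : 𝓞 K) ^ 4 * y ∧ (N : 𝓞 K) ^ 2 ∣ y - 1) ∧ (N : 𝓞 K) ^ 12 ∣ δ ∧
      (∀ β ∈ T, ¬ IsSquare (β * (((x : K) + δ) ^ 2 - 1))) ∧
      ¬ IsSquare ((((x : K) + δ) ^ 2 - 1)) ∧
      ¬ IsSquare ((((x : K) + δ) ^ 2 - 1) * c (((x : K) + δ) ^ 2 - 1)) := by
  classical
  -- an element moved by `c`
  obtain ⟨z0, hz0⟩ := hc
  obtain ⟨a0, b0, hb0, hab0⟩ := IsFractionRing.div_surjective (A := 𝓞 K) z0
  have hκ : ∃ κ : 𝓞 K, κ - conjO c κ ≠ 0 := by
    by_contra hcon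
    push Not at hcon
    apply hz0
    have h1 : ∀ κ : 𝓞 K, c (κ : K) = κ := by
      intro κ
      have := sub_eq_zero.1 (hcon κ)
      exact (congrArg (fun t : 𝓞 K => (t : K)) this).symm
    rw [← hab0, map_div₀]
    have e1 : c (algebraMap (𝓞 K) K a0) = algebraMap (𝓞 K) K a0 := h1 a0
    have e2 : c (algebraMap (𝓞 K) K b0) = algebraMap (𝓞 K) K b0 := h1 b0
    rw [e1, e2]
  obtain ⟨κ, hκ⟩ := hκ
  -- numerators and denominators of the elements of `T`
  have hfr : ∀ β : K, ∃ a b : 𝓞 K, β ≠ 0 → (a ≠ 0 ∧ b ≠ 0 ∧ β = (a : K) / (b : K)) := by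
    intro β
    obtain ⟨a, b, hb, hab⟩ := IsFractionRing.div_surjective (A := 𝓞 K) β
    refine ⟨a, b, fun hβ => ⟨?_, nonZeroDivisors.ne_zero hb, hab.symm⟩⟩
    rintro rfl
    rw [map_zero, zero_div] at hab
    exact hβ hab.symm
  choose A B hAB using hfr
  have hN0 : ∀ a : 𝓞 K, a ≠ 0 → (Ideal.span {a}).absNorm ≠ 0 := by
    intro a ha h
    rw [Ideal.absNorm_eq_zero_iff, Ideal.span_singleton_eq_bot] at h
    exact ha h
  have hTne : ∀ β ∈ T, β ≠ 0 := fun β hβ h => hT (h ▸ hβ)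
  set Bad : ℕ := 2 * N * (Ideal.span {κ - conjO c κ}).absNorm *
    ∏ β ∈ T, ((Ideal.span {A β}).absNorm * (Ideal.span {B β}).absNorm) with hBad
  have hBad0 : Bad ≠ 0 := by
    apply mul_ne_zero
    · exact mul_ne_zero (mul_ne_zero two_ne_zero hN) (hN0 _ hκ)
    · rw [Finset.prod_ne_zero_iff]
      intro β hβ
      exact mul_ne_zero (hN0 _ (hAB β (hTne β hβ)).1) (hN0 _ (hAB β (hTne β hβ)).2.1)
  obtain ⟨q, hq, hqB, ⟨ρ⟩⟩ := Pool.Agent.H637R2.Leo.exists_hom K Bad hBad0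
  have hqF : Fact q.Prime := ⟨hq⟩
  -- `ρ a ≠ 0` for the bad elements
  have hρn : ∀ n : ℕ, ¬ q ∣ n → ρ (n : 𝓞 K) ≠ 0 := by
    intro n hn h
    rw [map_natCast, ZMod.natCast_eq_zero_iff] at h
    exact hn h
  have hρ : ∀ a : 𝓞 K, ¬ q ∣ (Ideal.span {a}).absNorm → ρ a ≠ 0 := by
    intro a ha h
    have h1 := Ideal.absNorm_mem (Ideal.span {a})
    rw [Ideal.mem_span_singleton] at h1
    obtain ⟨t, ht⟩ := h1
    apply hρn _ ha
    rw [ht, map_mul, h, zero_mul]
  have hq2 : ¬ q ∣ 2 := fun h => hqB (by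
    rw [hBad]
    exact Dvd.dvd.mul_right (Dvd.dvd.mul_right (Dvd.dvd.mul_right h _) _) _)
  have hqN : ¬ q ∣ N := fun h => hqB (by
    rw [hBad]
    exact Dvd.dvd.mul_right (Dvd.dvd.mul_right (Dvd.dvd.mul_left h _) _) _)
  have hqκ : ρ (κ - conjO c κ) ≠ 0 := hρ _ fun h => hqB (by
    rw [hBad]
    exact Dvd.dvd.mul_right (Dvd.dvd.mul_left h _) _)
  have hqA : ∀ β ∈ T, ρ (A β) ≠ 0 := fun β hβ => hρ _ fun h => hqB (by
    rw [hBad]
    exact Dvd.dvd.mul_left ((Dvd.dvd.mul_right h _).trans (Finset.dvd_prod_of_mem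
      (fun β => (Ideal.span {A β}).absNorm * (Ideal.span {B β}).absNorm) hβ)) _)
  have hqB' : ∀ β ∈ T, ρ (B β) ≠ 0 := fun β hβ => hρ _ fun h => hqB (by
    rw [hBad]
    exact Dvd.dvd.mul_left ((Dvd.dvd.mul_left h _).trans (Finset.dvd_prod_of_mem
      (fun β => (Ideal.span {A β}).absNorm * (Ideal.span {B β}).absNorm) hβ)) _)
  -- the two primes
  set ρ' : 𝓞 K →+* ZMod q := ρ.comp (conjO c) with hρ'
  have hsurj : ∀ f : 𝓞 K →+* ZMod q, Function.Surjective f := by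
    intro f t
    refine ⟨((t.val : ℕ) : 𝓞 K), ?_⟩
    rw [map_natCast, ZMod.natCast_zmod_val]
  have hmax : ∀ f : 𝓞 K →+* ZMod q, (RingHom.ker f).IsMaximal := fun f =>
    RingHom.ker_isMaximal_of_surjective f (hsurj f)
  have hqmem : ∀ f : 𝓞 K →+* ZMod q, (q : 𝓞 K) ∈ RingHom.ker f := by
    intro f
    rw [RingHom.mem_ker, map_natCast, ZMod.natCast_self]
  have hqne : (q : 𝓞 K) ≠ 0 := by exact_mod_cast hq.ne_zero
  have hne : RingHom.ker ρ ≠ RingHom.ker ρ' := by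
    intro h
    apply hqκ
    have h1 : κ - (((ρ κ).val : ℕ) : 𝓞 K) ∈ RingHom.ker ρ := by
      rw [RingHom.mem_ker, map_sub, map_natCast, ZMod.natCast_zmod_val, sub_self]
    rw [h, RingHom.mem_ker, map_sub, map_natCast, ZMod.natCast_zmod_val] at h1
    rw [map_sub]
    have h2 : ρ' κ = ρ (conjO c κ) := rfl
    rw [h2] at h1
    linear_combination -h1
  set v : HeightOneSpectrum (𝓞 K) := ⟨RingHom.ker ρ, (hmax ρ).isPrime, by
    intro h
    have := hqmem ρ
    rw [h, Ideal.mem_bot] at this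
    exact hqne this⟩ with hv
  have hvI : v.asIdeal = RingHom.ker ρ := rfl
  obtain ⟨π, hπ⟩ := v.intValuation_exists_uniformizer
  -- coprimality
  have hcop0 : IsCoprime ((Ideal.span {((N : ℕ) : 𝓞 K) ^ 6} : Ideal (𝓞 K))) ((RingHom.ker ρ) ^ 2) := by
    rw [← Ideal.span_singleton_pow]
    apply IsCoprime.pow
    rw [Ideal.isCoprime_iff_sup_eq, Ideal.eq_top_iff_one]
    have : IsCoprime (N : ℤ) (q : ℤ) := by
      rw [Nat.isCoprime_iff_coprime]
      exact ((Nat.Prime.coprime_iff_not_dvd hq).2 hqN).symm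
    obtain ⟨a, b, hab⟩ := this
    have h1 : (1 : 𝓞 K) = (a : 𝓞 K) * (N : 𝓞 K) + (b : 𝓞 K) * (q : 𝓞 K) := by
      have := congrArg (fun t : ℤ => (t : 𝓞 K)) hab
      push_cast at this
      exact this.symm
    rw [h1]
    apply Submodule.add_mem_sup
    · exact Ideal.mul_mem_left _ _ (Ideal.mem_span_singleton_self _)
    · exact Ideal.mul_mem_left _ _ (hqmem ρ)
  have hcop1 : IsCoprime ((Ideal.span {((N : ℕ) : 𝓞 K) ^ 6} : Ideal (𝓞 K))) (RingHom.ker ρ') := by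
    rw [← Ideal.span_singleton_pow]
    apply IsCoprime.pow_left
    rw [Ideal.isCoprime_iff_sup_eq, Ideal.eq_top_iff_one]
    have : IsCoprime (N : ℤ) (q : ℤ) := by
      rw [Nat.isCoprime_iff_coprime]
      exact ((Nat.Prime.coprime_iff_not_dvd hq).2 hqN).symm
    obtain ⟨a, b, hab⟩ := this
    have h1 : (1 : 𝓞 K) = (a : 𝓞 K) * (N : 𝓞 K) + (b : 𝓞 K) * (q : 𝓞 K) := by
      have := congrArg (fun t : ℤ => (t : 𝓞 K)) hab
      push_cast at this
      exact this.symm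
    rw [h1]
    apply Submodule.add_mem_sup
    · exact Ideal.mul_mem_left _ _ (Ideal.mem_span_singleton_self _)
    · exact Ideal.mul_mem_left _ _ (hqmem ρ')
  have hcop2 : IsCoprime ((RingHom.ker ρ) ^ 2) (RingHom.ker ρ') := by
    apply IsCoprime.pow_left
    rw [Ideal.isCoprime_iff_sup_eq]
    exact (hmax ρ).coprime_of_ne (hmax ρ') hne
  -- the Chinese remainder theorem
  obtain ⟨x, hx⟩ := Ideal.exists_forall_sub_mem_ideal
    (I := (![Ideal.span {((N : ℕ) : 𝓞 K) ^ 6}, (RingHom.ker ρ) ^ 2, RingHom.ker ρ'] : Fin 3 → Ideal (𝓞 K)))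
    (by
      intro i j hij
      fin_cases i <;> fin_cases j <;> first | exact absurd rfl hij | skip
      · exact hcop0
      · exact hcop1
      · exact hcop0.symm
      · exact hcop2
      · exact hcop1.symm
      · exact hcop2.symm)
    ![(N : 𝓞 K) ^ 4, 1 + π, 0]
  have hx0 := hx 0
  have hx1 := hx 1
  have hx2 := hx 2
  simp only [Matrix.cons_val_zero, Matrix.cons_val_one, Matrix.cons_val] at hx0 hx1 hx2
  rw [sub_zero] at hx2
  rw [Ideal.mem_span_singleton] at hx0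
  -- `x` modulo the prime
  have hπmem : π ∈ RingHom.ker ρ := by
    rw [← hvI, ← v.intValuation_lt_one_iff_mem, hπ]
    rw [← exp_zero, exp_lt_exp]
    norm_num
  have hρx : ρ x = 1 := by
    have h1 : x - (1 + π) ∈ RingHom.ker ρ := Ideal.pow_le_self two_ne_zero hx1
    rw [RingHom.mem_ker, map_sub, map_add, map_one, (RingHom.mem_ker).1 hπmem] at h1
    linear_combination h1
  have hxne : x ≠ 0 := by
    rintro rfl
    rw [map_zero] at hρx
    exact zero_ne_one hρx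
  -- the exponent
  have hm : 4 * x * ((N : 𝓞 K) ^ 12 * (q : 𝓞 K) ^ 2) ≠ 0 := by
    apply mul_ne_zero (mul_ne_zero (by norm_num) hxne)
    exact mul_ne_zero (pow_ne_zero _ (by exact_mod_cast hN)) (pow_ne_zero _ hqne)
  obtain ⟨n, hn, t, ht⟩ := exists_pow_dvd η _ hm
  set δ : 𝓞 K := (N : 𝓞 K) ^ 12 * (q : 𝓞 K) ^ 2 * t with hδ
  have hδker : ∀ f : 𝓞 K →+* ZMod q, f δ = 0 := by
    intro f
    rw [hδ, map_mul, map_mul, map_pow _ (q : 𝓞 K), (RingHom.mem_ker).1 (hqmem f)]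
    ring
  have hδ2 : δ ∈ (RingHom.ker ρ) ^ 2 := by
    rw [hδ]
    apply Ideal.mul_mem_right
    apply Ideal.mul_mem_left
    exact Ideal.pow_mem_pow (hqmem ρ) 2
  -- valuations
  set α : 𝓞 K := (x + δ) ^ 2 - 1 with hα
  have hαK : ((x : K) + δ) ^ 2 - 1 = ((α : 𝓞 K) : K) := by
    rw [hα]; simp
  have hvα : v.intValuation α = exp (-1 : ℤ) := by
    have h1 : α = (x + δ - 1) * (x + δ + 1) := by rw [hα]; ring
    have h2 : v.intValuation (x + δ - 1) = exp (-1 : ℤ) := by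
      have h3 : x + δ - 1 = (x - (1 + π) + δ) + π := by ring
      rw [h3, Valuation.map_add_eq_of_lt_right, hπ]
      rw [hπ]
      have h4 : x - (1 + π) + δ ∈ v.asIdeal ^ 2 := by
        rw [hvI]
        exact Ideal.add_mem _ hx1 hδ2
      have h5 := (v.intValuation_le_pow_iff_mem _ 2).2 h4
      refine lt_of_le_of_lt h5 ?_
      rw [exp_lt_exp]
      norm_num
    have h3 : v.intValuation (x + δ + 1) = 1 := by
      apply val_natCast
      rw [hvI, RingHom.mem_ker, map_add, map_add, hδker, hρx, map_one, add_zero]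
      intro h
      apply hρn 2 hq2
      rw [map_natCast]
      push_cast
      linear_combination h
    rw [h1, map_mul, h2, h3, mul_one]
  have hvcα : v.intValuation (conjO c α) = 1 := by
    apply val_natCast
    rw [hvI, RingHom.mem_ker]
    have h1 : ρ (conjO c α) = ρ' α := rfl
    rw [h1, hα, map_sub, map_pow, map_add, hδker, (RingHom.mem_ker).1 hx2, map_one]
    intro h
    have : (1 : ZMod q) = 0 := by linear_combination -h
    exact one_ne_zero this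
  refine ⟨x, δ, n, hn, hxne, ?_, ?_, ?_, ?_, ?_, ?_⟩
  · rw [ht, hδ]; ring
  · obtain ⟨s, hs⟩ := hx0
    refine ⟨1 + (N : 𝓞 K) ^ 2 * s, ?_, ⟨s, by ring⟩⟩
    linear_combination hs
  · exact ⟨(q : 𝓞 K) ^ 2 * t, by rw [hδ]; ring⟩
  · intro β hβ
    obtain ⟨hA0, hB0, hβe⟩ := hAB β (hTne β hβ)
    apply not_isSquare_of_val v
    rw [map_mul, hαK, hβe, map_div₀]
    have e1 : v.valuation K (A β : K) = 1 := by
      rw [show ((A β : 𝓞 K) : K) = algebraMap (𝓞 K) K (A β) from rfl, v.valuation_of_algebraMap]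
      exact val_natCast v _ (by rw [hvI, RingHom.mem_ker]; exact hqA β hβ)
    have e2 : v.valuation K (B β : K) = 1 := by
      rw [show ((B β : 𝓞 K) : K) = algebraMap (𝓞 K) K (B β) from rfl, v.valuation_of_algebraMap]
      exact val_natCast v _ (by rw [hvI, RingHom.mem_ker]; exact hqB' β hβ)
    rw [e1, e2, div_one, one_mul]
    rw [show ((α : 𝓞 K) : K) = algebraMap (𝓞 K) K α from rfl, v.valuation_of_algebraMap, hvα]
  · apply not_isSquare_of_val v
    rw [hαK, show ((α : 𝓞 K) : K) = algebraMap (𝓞 K) K α from rfl, v.valuation_of_algebraMap, hvα]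
  · apply not_isSquare_of_val v
    rw [hαK, map_mul]
    have e1 : c ((α : 𝓞 K) : K) = algebraMap (𝓞 K) K (conjO c α) := rfl
    rw [e1, show ((α : 𝓞 K) : K) = algebraMap (𝓞 K) K α from rfl, v.valuation_of_algebraMap,
      v.valuation_of_algebraMap, hvα, hvcα, mul_one]

end

end Pool.Agent.W289.SL
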