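import Mathlib
import Pool.Agent.W289.SL.Defs

set_option autoImplicit false
set_option linter.unusedSectionVars false

/-!
# A criterion for quadratic extensions
-/

namespace Pool.Agent.W289.SL

open NumberField TensorProduct

variable {p : ℕ} [Fact p.Prime]

lemma unitHom_apply {H : Type} [Field H] [NumberField H] (f : H →+* H) (u : Additive (𝓞 H)ˣ) :
    (((Additive.toMul (unitHom f u) : (𝓞 H)ˣ) : 𝓞 H) : H) = f ((Additive.toMul u : (𝓞 H)ˣ) : 𝓞 H) :=
  rfl

lemma unitHom_comp {H : Type} [Field H] [NumberField H] (f g : H →+* H) (u : Additive (𝓞 H)ˣ) :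
    unitHom f (unitHom g u) = unitHom (f.comp g) u := by
  apply Additive.toMul.injective
  apply Units.ext
  apply RingOfIntegers.ext
  rfl

lemma unitHom_id {H : Type} [Field H] [NumberField H] (u : Additive (𝓞 H)ˣ) :
    unitHom (RingHom.id H) u = u := by
  apply Additive.toMul.injective
  apply Units.ext
  apply RingOfIntegers.ext
  rfl

lemma actLin_tmul {H : Type} [Field H] [NumberField H] (f : H →+* H) (c : ℂ_[p])
    (u : Additive (𝓞 H)ˣ) : actLin p f (c ⊗ₜ u) = c ⊗ₜ unitHom f u := rfl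

lemma logLin_tmul {H : Type} [Field H] [NumberField H] {L : ℂ_[p] → ℂ_[p]}
    (hL : IsIwasawaLog p L) (σ : H →+* ℂ_[p]) (c : ℂ_[p]) (u : Additive (𝓞 H)ˣ) :
    logLin hL σ (c ⊗ₜ u) = c * L (σ ((Additive.toMul u : (𝓞 H)ˣ) : 𝓞 H)) := rfl

section

variable (K H : Type) [Field K] [NumberField K] [Field H] [NumberField H] [Algebra K H]

/-- the units of `K` in `H`, additively -/
noncomputable def unitInc : Additive (𝓞 K)ˣ →+ Additive (𝓞 H)ˣ :=
  MonoidHom.toAdditive (Units.map (algebraMap (𝓞 K) (𝓞 H)).toMonoidHom)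

variable {K H}

omit [NumberField K] [NumberField H] in
lemma unitInc_apply (u : Additive (𝓞 K)ˣ) :
    (((Additive.toMul (unitInc K H u) : (𝓞 H)ˣ) : 𝓞 H) : H)
      = algebraMap K H ((Additive.toMul u : (𝓞 K)ˣ) : 𝓞 K) :=
  rfl

lemma unitInc_injective : Function.Injective (unitInc K H) := by
  intro u v huv
  apply Additive.toMul.injective
  apply Units.ext
  apply RingOfIntegers.ext
  apply (algebraMap K H).injective
  rw [← unitInc_apply (H := H) u, ← unitInc_apply (H := H) v, huv]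

lemma unitHom_unitInc (τ : H ≃ₐ[K] H) (u : Additive (𝓞 K)ˣ) :
    unitHom (τ : H →+* H) (unitInc K H u) = unitInc K H u := by
  apply Additive.toMul.injective
  apply Units.ext
  apply RingOfIntegers.ext
  rw [unitHom_apply, unitInc_apply]
  exact τ.commutes _

lemma rank_complex (K : Type) [Field K] [NumberField K] [IsTotallyComplex K] :
    2 * (Units.rank K + 1) = Module.finrank ℚ K := by
  have h1 := InfinitePlace.card_eq_nrRealPlaces_add_nrComplexPlaces K
  have h2 := IsTotallyComplex.nrRealPlaces_eq_zero K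
  have h3 := IsTotallyComplex.finrank K
  have h4 : 0 < Fintype.card (InfinitePlace K) := Fintype.card_pos
  rw [h3, Units.rank]
  omega

lemma sq_eq_one_of_finrank_two (h2 : Module.finrank K H = 2) (τ : H ≃ₐ[K] H) :
    (τ : H →+* H).comp (τ : H →+* H) = RingHom.id H := by
  have hfd : FiniteDimensional K H := Module.finite_of_finrank_pos (by omega)
  have hcard : Nat.card (H ≃ₐ[K] H) ≤ 2 := by
    rw [← h2]
    have := AlgEquiv.card_le (F := K) (K := H)
    rwa [Nat.card_eq_fintype_card]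
  have hfin : Finite (H ≃ₐ[K] H) := inferInstance
  have h3 : τ * τ = 1 := by
    have hpos : 0 < orderOf τ := orderOf_pos τ
    have h4 : orderOf τ ≤ 2 := (Nat.le_of_dvd Nat.card_pos (orderOf_dvd_natCard τ)).trans hcard
    rw [← pow_two]
    apply orderOf_dvd_iff_pow_eq_one.1
    interval_cases orderOf τ <;> decide
  ext x
  exact congrArg (fun f : H ≃ₐ[K] H => f x) h3

/-- the key finiteness statement: an anti-invariant unit has a power in the span of `y` -/
lemma exists_rel [IsTotallyComplex K] (h2 : Module.finrank K H = 2) (d : ℕ)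
    (hd : Module.finrank ℚ K = 2 * d) (τ : H ≃ₐ[K] H)
    (y : Fin d → Additive (𝓞 H)ˣ) (hy : ∀ i, unitHom (τ : H →+* H) (y i) = -y i)
    (hyi : LinearIndependent ℤ y) (w : Additive (𝓞 H)ˣ) (hw : unitHom (τ : H →+* H) w = -w) :
    ∃ (b : ℤ) (a : Fin d → ℤ), b ≠ 0 ∧ b • w = ∑ i, a i • y i := by
  have hHc : IsTotallyComplex H := isTotallyComplex_of_algebra K H
  have hrK : 2 * (Units.rank K + 1) = Module.finrank ℚ K := rank_complex K
  have hrH : 2 * (Units.rank H + 1) = Module.finrank ℚ H := rank_complex H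
  have hKH : Module.finrank ℚ K * Module.finrank K H = Module.finrank ℚ H :=
    Module.finrank_mul_finrank ℚ K H
  obtain ⟨e, he⟩ := exists_linearIndependent_of_le_finrank (R := ℤ) (M := Additive (𝓞 K)ˣ)
    (n := Units.rank K) (by rw [Units.finrank_eq])
  set v : (Fin d ⊕ Unit) ⊕ Fin (Units.rank K) → Additive (𝓞 H)ˣ :=
    Sum.elim (Sum.elim y (fun _ => w)) (fun j => unitInc K H (e j)) with hv
  have h1 : ¬ LinearIndependent ℤ v := by
    intro h
    have h3 := h.fintype_card_le_finrank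
    rw [Units.finrank_eq] at h3
    simp only [Fintype.card_sum, Fintype.card_fin, Fintype.card_unit] at h3
    rw [h2] at hKH
    omega
  rw [Fintype.not_linearIndependent_iff] at h1
  obtain ⟨g, hg, i0, hi0⟩ := h1
  rw [Fintype.sum_sum_type, Fintype.sum_sum_type] at hg
  simp only [hv, Sum.elim_inl, Sum.elim_inr, Finset.univ_unique, Finset.sum_singleton] at hg
  set a : Fin d → ℤ := fun i => g (Sum.inl (Sum.inl i)) with ha
  set b : ℤ := g (Sum.inl (Sum.inr default)) with hb
  set c : Fin (Units.rank K) → ℤ := fun i => g (Sum.inr i) with hc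
  change ∑ i, a i • y i + b • w + ∑ j, c j • unitInc K H (e j) = 0 at hg
  have hg2 := congrArg (unitHom (τ : H →+* H)) hg
  rw [map_add, map_add, map_sum, map_sum, map_zsmul, hw, map_zero] at hg2
  have e1 : ∑ x, unitHom (τ : H →+* H) (a x • y x) = -∑ i, a i • y i := by
    rw [← Finset.sum_neg_distrib]
    refine Finset.sum_congr rfl fun i _ => ?_
    rw [map_zsmul, hy, zsmul_neg]
  have e2 : ∑ x, unitHom (τ : H →+* H) (c x • unitInc K H (e x)) = ∑ j, c j • unitInc K H (e j) := by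
    refine Finset.sum_congr rfl fun i _ => ?_
    rw [map_zsmul, unitHom_unitInc]
  rw [e1, e2] at hg2
  have h4 : (2 * b) • w = ∑ i, (-2 * a i) • y i := by
    have h5 : ∑ i, (-2 * a i) • y i = -((∑ i, a i • y i) + ∑ i, a i • y i) := by
      rw [← Finset.sum_add_distrib, ← Finset.sum_neg_distrib]
      refine Finset.sum_congr rfl fun i _ => ?_
      rw [← add_zsmul, ← neg_zsmul]
      congr 1
      ring
    rw [h5]
    have h6 := sub_eq_zero.2 (hg.trans hg2.symm)
    have h8 : b • (-w) = -(b • w) := zsmul_neg w b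
    rw [h8] at h6
    have h7 : (2 * b) • w + ((∑ i, a i • y i) + ∑ i, a i • y i) = 0 := by
      have h9 : (2 * b) • w = b • w + b • w := by rw [← add_zsmul]; congr 1; ring
      rw [← h6, h9]
      abel
    exact eq_neg_of_add_eq_zero_left h7
  by_cases hb0 : b = 0
  · exfalso
    rw [hb0, mul_zero, zero_smul] at h4
    have h5 := (Fintype.linearIndependent_iff.1 hyi) (fun i => -2 * a i) h4.symm
    have ha0 : ∀ i, a i = 0 := fun i => by have := h5 i; omega
    have h6 : ∑ i, a i • y i = 0 := Finset.sum_eq_zero fun i _ => by rw [ha0, zero_smul]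
    rw [h6, hb0, zero_smul, zero_add, zero_add] at hg
    have h7 : unitInc K H (∑ j, c j • e j) = 0 := by
      rw [map_sum, ← hg]
      refine Finset.sum_congr rfl fun i _ => by rw [map_zsmul]
    have h8 : ∑ j, c j • e j = 0 := unitInc_injective (by rw [h7, map_zero])
    have hc0 := (Fintype.linearIndependent_iff.1 he) c h8
    rcases i0 with (i | i) | i
    · exact hi0 (ha0 i)
    · exact hi0 hb0
    · exact hi0 (hc0 i)
  · exact ⟨2 * b, fun i => -2 * a i, by omega, h4⟩

/-- **Criterion.** -/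
theorem criterion [IsTotallyComplex K] (h2 : Module.finrank K H = 2) (d : ℕ)
    (hd : Module.finrank ℚ K = 2 * d) (τ : H ≃ₐ[K] H)
    (y : Fin d → (𝓞 H)ˣ) (hy : ∀ i, τ (y i : 𝓞 H) * ((y i : 𝓞 H) : H) = 1)
    {L : ℂ_[p] → ℂ_[p]} (hL : IsIwasawaLog p L) (σ : Fin d → (H →+* ℂ_[p]))
    (hdet : ∀ c : Fin d → ℂ_[p], (∀ j, ∑ i, c i * L (σ j (y i : 𝓞 H)) = 0) → c = 0)
    (x : UM p H) (hx : actLin p (τ : H →+* H) x = -x) (hx0 : ∀ j, logLin hL (σ j) x = 0) :
    x = 0 := by
  set Y : Fin d → Additive (𝓞 H)ˣ := fun i => Additive.ofMul (y i) with hY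
  have hττ := sq_eq_one_of_finrank_two h2 τ
  have hY2 : ∀ i, unitHom (τ : H →+* H) (Y i) = -Y i := by
    intro i
    rw [eq_neg_iff_add_eq_zero]
    apply Additive.toMul.injective
    apply Units.ext
    apply RingOfIntegers.ext
    exact hy i
  have hYi : LinearIndependent ℤ Y := by
    rw [Fintype.linearIndependent_iff]
    intro g hg i
    have h1 : (fun i => (g i : ℂ_[p])) = 0 := by
      apply hdet
      intro j
      have h3 := congrArg (logHom hL (σ j)) hg
      rw [map_sum, map_zero] at h3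
      rw [← h3]
      refine Finset.sum_congr rfl fun i _ => ?_
      rw [map_zsmul, zsmul_eq_mul]
      rfl
    have h4 := congrFun h1 i
    simpa using h4
  -- the span
  set V : Submodule ℂ_[p] (UM p H) := Submodule.span ℂ_[p] (Set.range fun i => (1 : ℂ_[p]) ⊗ₜ[ℤ] Y i) with hV
  have hmem : ∀ z : UM p H, z - actLin p (τ : H →+* H) z ∈ V := by
    intro z
    induction z using TensorProduct.induction_on with
    | zero => simp
    | add z1 z2 h1 h2 =>
      rw [map_add, add_sub_add_comm]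
      exact V.add_mem h1 h2
    | tmul c u =>
      rw [actLin_tmul, ← tmul_sub]
      set w := u - unitHom (τ : H →+* H) u with hw
      have hw2 : unitHom (τ : H →+* H) w = -w := by
        rw [hw, map_sub, unitHom_comp, hττ, unitHom_id, neg_sub]
      obtain ⟨b, a, hb, hab⟩ := exists_rel h2 d hd τ Y hY2 hYi w hw2
      have h3 : (b : ℂ_[p]) • (c ⊗ₜ[ℤ] w : UM p H) = ∑ i, (c * (a i : ℂ_[p])) • ((1 : ℂ_[p]) ⊗ₜ[ℤ] Y i) := by
        have h4 : ∀ (b : ℤ) (w : Additive (𝓞 H)ˣ) (c : ℂ_[p]),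
            (b : ℂ_[p]) • (c ⊗ₜ[ℤ] w : UM p H) = c ⊗ₜ[ℤ] (b • w) := by
          intro b w c
          have h5 := map_zsmul (TensorProduct.mk ℤ ℂ_[p] (Additive (𝓞 H)ˣ) c) b w
          rw [Int.cast_smul_eq_zsmul]
          exact h5.symm
        rw [h4, hab, tmul_sum]
        refine Finset.sum_congr rfl fun i _ => ?_
        rw [← h4, mul_comm, mul_smul]
        congr 1
        rw [TensorProduct.smul_tmul', smul_eq_mul, mul_one]
      have hb' : (b : ℂ_[p]) ≠ 0 := by exact_mod_cast hb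
      have h5 : (c ⊗ₜ[ℤ] w : UM p H) = (b : ℂ_[p])⁻¹ • ∑ i, (c * (a i : ℂ_[p])) • ((1 : ℂ_[p]) ⊗ₜ[ℤ] Y i) := by
        rw [← h3, smul_smul, inv_mul_cancel₀ hb', one_smul]
      rw [h5]
      apply V.smul_mem
      apply V.sum_mem
      intro i _
      apply V.smul_mem
      exact Submodule.subset_span ⟨i, rfl⟩
  have hxV : x ∈ V := by
    have h3 := hmem x
    rw [hx, sub_neg_eq_add, ← two_smul ℂ_[p]] at h3
    have h4 := V.smul_mem (2 : ℂ_[p])⁻¹ h3
    rwa [smul_smul, inv_mul_cancel₀ two_ne_zero, one_smul] at h4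
  obtain ⟨c, hc⟩ := (Submodule.mem_span_range_iff_exists_fun ℂ_[p]).1 hxV
  have hc0 : c = 0 := by
    apply hdet
    intro j
    rw [← hx0 j, ← hc, map_sum]
    refine Finset.sum_congr rfl fun i _ => ?_
    rw [map_smul, logLin_tmul, one_mul, smul_eq_mul]
    rfl
  rw [← hc, hc0]
  simp

/-- the criterion in the form of `SigmaLeopoldt` -/
theorem sigmaLeopoldt_of [IsTotallyComplex K] (h2 : Module.finrank K H = 2) (d : ℕ)
    (hd : Module.finrank ℚ K = 2 * d) (S : Set (K →+* ℂ_[p]))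
    (χ : (H ≃ₐ[K] H) →* ℂ_[p]ˣ) (hχ : χ ≠ 1)
    (hex : ∀ (L : ℂ_[p] → ℂ_[p]) (_ : IsIwasawaLog p L) (τ : H ≃ₐ[K] H), τ ≠ 1 →
      ∃ (y : Fin d → (𝓞 H)ˣ) (σ : Fin d → (H →+* ℂ_[p])),
        (∀ i, τ (y i : 𝓞 H) * ((y i : 𝓞 H) : H) = 1) ∧
        (∀ j, (σ j).comp (algebraMap K H) ∈ S) ∧
        (∀ c : Fin d → ℂ_[p], (∀ j, ∑ i, c i * L (σ j (y i : 𝓞 H)) = 0) → c = 0)) :
    SigmaLeopoldt p K H S χ := by
  intro L hL x hact hlog
  obtain ⟨τ, hτ⟩ : ∃ τ, χ τ ≠ 1 := by
    by_contra hcon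
    push Not at hcon
    exact hχ (MonoidHom.ext hcon)
  have hτ1 : τ ≠ 1 := by
    rintro rfl
    exact hτ (map_one χ)
  have hττ : τ * τ = 1 := by
    have h3 := sq_eq_one_of_finrank_two h2 τ
    ext x
    exact congrArg (fun f : H →+* H => f x) h3
  have hχτ : ((χ τ : ℂ_[p]ˣ) : ℂ_[p]) = -1 := by
    have h3 : ((χ τ : ℂ_[p]ˣ) : ℂ_[p]) * ((χ τ : ℂ_[p]ˣ) : ℂ_[p]) = 1 := by
      rw [← Units.val_mul, ← map_mul, hττ, map_one, Units.val_one]
    rcases mul_self_eq_one_iff.1 h3 with h | h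
    · exact absurd (Units.ext h) hτ
    · exact h
  obtain ⟨y, σ, hy, hσ, hdet⟩ := hex L hL τ hτ1
  exact criterion h2 d hd τ y hy hL σ hdet x (by rw [hact τ, hχτ, neg_one_smul])
    (fun j => hlog _ (hσ j))

end

end Pool.Agent.W289.SL
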