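import Mathlib
import Pool.Agent.W289.SL.PLog

set_option autoImplicit false

/-!
# The `p`-adic estimate for two explicit units
-/

namespace Pool.Agent.W289.SL

variable {p : ℕ} [hp : Fact p.Prime]

lemma norm_add_le3 {a b : ℂ_[p]} {r : ℝ} (ha : ‖a‖ ≤ r) (hb : ‖b‖ ≤ r) : ‖a + b‖ ≤ r :=
  (IsUltrametricDist.norm_add_le_max a b).trans (max_le ha hb)

lemma norm_sub_le3 {a b : ℂ_[p]} {r : ℝ} (ha : ‖a‖ ≤ r) (hb : ‖b‖ ≤ r) : ‖a - b‖ ≤ r := by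
  rw [sub_eq_add_neg]
  exact norm_add_le3 ha (by rwa [norm_neg])

lemma norm_eq_of_lt {a b : ℂ_[p]} (h : ‖b‖ < ‖a‖) : ‖a + b‖ = ‖a‖ := by
  rw [IsUltrametricDist.norm_add_eq_max_of_norm_ne_norm h.ne', max_eq_left h.le]

variable {L : ℂ_[p] → ℂ_[p]} (hL : IsIwasawaLog p L)

include hL

/-- the logarithm of `u`, where `u + u⁻¹ = 2 (x + δ)` -/
lemma log_u {x δ u : ℂ_[p]} {r : ℝ} (hr : r ≤ 1 / 8) (hx : ‖x‖ = r) (hδ : ‖δ‖ ≤ r ^ 2)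
    (hu : ‖u‖ = 1) (hue : u ^ 2 = 2 * (x + δ) * u - 1) : ‖L u + x * u‖ ≤ 2 * r ^ 2 := by
  have hr0 : 0 ≤ r := hx ▸ norm_nonneg _
  have hδr : ‖δ‖ ≤ r := hδ.trans (by nlinarith)
  have hu0 : u ≠ 0 := by
    rintro rfl
    rw [norm_zero] at hu
    exact zero_ne_one hu
  have h2 := norm_two_le (p := p)
  have h2' := half_le_norm_two (p := p)
  set z : ℂ_[p] := -(2 * (x + δ) * u) with hz
  have hxδ : ‖x + δ‖ ≤ r := norm_add_le3 hx.le hδr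
  have hz1 : ‖z‖ ≤ ‖(2 : ℂ_[p])‖ * r := by
    rw [hz, norm_neg, norm_mul, norm_mul, hu, mul_one]
    gcongr
  have hz2 : ‖z‖ ≤ 1 / 8 := by
    refine hz1.trans ?_
    nlinarith
  have h3 := hL.approx hz2
  have h4 : L (1 + z) = 2 * L u := by
    have h5 : 1 + z = -(u ^ 2) := by rw [hz, hue]; ring
    rw [h5, hL.neg (pow_ne_zero _ hu0), hL.pow hu0]
    push_cast
    ring
  rw [h4, hz] at h3
  have h5 : 2 * L u - -(2 * (x + δ) * u) = 2 * (L u + (x + δ) * u) := by ring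
  rw [h5, norm_mul, ← hz] at h3
  have h6 : ‖L u + (x + δ) * u‖ ≤ 2 * r ^ 2 := by
    have h7 : ‖(2 : ℂ_[p])‖ * ‖L u + (x + δ) * u‖ ≤ ‖(2 : ℂ_[p])‖ * (2 * r ^ 2) := by
      refine h3.trans ?_
      calc 2 * ‖z‖ ^ 2 ≤ 2 * (‖(2 : ℂ_[p])‖ * r) ^ 2 := by gcongr
        _ = ‖(2 : ℂ_[p])‖ * (‖(2 : ℂ_[p])‖ * (2 * r ^ 2)) := by ring
        _ ≤ ‖(2 : ℂ_[p])‖ * (1 * (2 * r ^ 2)) := by gcongr
        _ = _ := by ring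
    exact le_of_mul_le_mul_left h7 (by linarith)
  have h8 : L u + x * u = (L u + (x + δ) * u) - δ * u := by ring
  rw [h8]
  apply norm_sub_le3 h6
  rw [norm_mul, hu, mul_one]
  nlinarith

/-- the logarithm of `w = (1 - 2 δ u)² / (1 - ν)`, where `ν = 4 x δ` -/
lemma log_w {x δ u ν w : ℂ_[p]} {r : ℝ} (hr : r ≤ 1 / 8) (hx : ‖x‖ = r) (hδ : ‖δ‖ ≤ r ^ 2)
    (hu : ‖u‖ = 1) (hν : 4 * x * δ = ν) (hw : w = (1 - 2 * δ * u) ^ 2 / (1 - ν)) :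
    ‖L w + 4 * δ * u‖ ≤ r * ‖4 * δ‖ := by
  have hr0 : 0 ≤ r := hx ▸ norm_nonneg _
  have hδr : ‖δ‖ ≤ r / 8 := hδ.trans (by nlinarith)
  have h2 := norm_two_le (p := p)
  have h2' := half_le_norm_two (p := p)
  have hδ0 := norm_nonneg δ
  have h4 : ‖(4 : ℂ_[p])‖ = ‖(2 : ℂ_[p])‖ ^ 2 := by
    rw [← norm_pow]; norm_num
  have h4le : ‖(4 : ℂ_[p])‖ ≤ 1 := by rw [h4]; nlinarith [norm_nonneg (2 : ℂ_[p])]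
  have hν1 : ‖ν‖ = r * ‖4 * δ‖ := by
    rw [← hν, show 4 * x * δ = x * (4 * δ) by ring, norm_mul, hx]
  have h4δ : ‖4 * δ‖ ≤ 1 / 8 := by
    rw [norm_mul]
    nlinarith
  have hν2 : ‖ν‖ ≤ 1 / 8 := by
    rw [hν1]
    nlinarith [norm_nonneg (4 * δ)]
  set z : ℂ_[p] := -(2 * δ * u) with hz
  have hz1 : ‖z‖ = ‖2 * δ‖ := by rw [hz, norm_neg, norm_mul, hu, mul_one]
  have h2δ : ‖2 * δ‖ ≤ r / 8 := by
    rw [norm_mul]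
    nlinarith
  have hz2 : ‖z‖ ≤ 1 / 8 := by rw [hz1]; linarith
  have h5 := hL.approx hz2
  have h6 := hL.approx (z := -ν) (by rwa [norm_neg])
  have hne1 : 1 + z ≠ 0 := by
    intro h
    have : z = -1 := by linear_combination h
    rw [this, norm_neg, norm_one] at hz2
    norm_num at hz2
  have hne2 : 1 + -ν ≠ 0 := by
    intro h
    have : ν = 1 := by linear_combination -h
    rw [this, norm_one] at hν2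
    norm_num at hν2
  have h7 : L w = 2 * L (1 + z) - L (1 + -ν) := by
    rw [hw, show (1 - 2 * δ * u) = 1 + z by rw [hz]; ring, show 1 - ν = 1 + -ν by ring,
      hL.div (pow_ne_zero _ hne1) hne2, hL.pow hne1]
    push_cast
    ring
  have h8 : L w + 4 * δ * u = 2 * (L (1 + z) - z) - (L (1 + -ν) - -ν) + ν := by
    rw [h7, hz]; ring
  rw [h8]
  apply norm_add_le3
  · apply norm_sub_le3
    · rw [norm_mul]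
      calc ‖(2 : ℂ_[p])‖ * ‖L (1 + z) - z‖ ≤ ‖(2 : ℂ_[p])‖ * (2 * ‖z‖ ^ 2) := by gcongr
        _ = 2 * (‖(2 : ℂ_[p])‖ * ‖2 * δ‖) * ‖2 * δ‖ := by rw [hz1]; ring
        _ = 2 * ‖4 * δ‖ * ‖2 * δ‖ := by
            rw [← norm_mul, show (2 : ℂ_[p]) * (2 * δ) = 4 * δ by ring]
        _ ≤ 2 * ‖4 * δ‖ * (r / 8) := by gcongr
        _ ≤ r * ‖4 * δ‖ := by nlinarith [norm_nonneg (4 * δ), mul_nonneg hr0 (norm_nonneg (4 * δ))]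
    · refine h6.trans ?_
      rw [norm_neg, ← hν1]
      nlinarith [norm_nonneg ν]
  · exact hν1.le

omit hL in
/-- the remainder term -/
lemma remainder {x₁ x₂ δ₁ δ₂ u₁ u₂ w₁ w₂ : ℂ_[p]} {r β : ℝ} (hr0 : 0 < r) (hr : r ≤ 1 / 8)
    (hx₁ : ‖x₁‖ = r) (hx₂ : ‖x₂‖ = r) (hu₁ : ‖u₁‖ = 1) (hu₂ : ‖u₂‖ = 1)
    (hβ1 : ‖4 * δ₁‖ = β) (hβ2 : ‖4 * δ₂‖ = β)
    (e1 : ‖L u₁ + x₁ * u₁‖ ≤ 2 * r ^ 2) (e2 : ‖L u₂ + x₂ * u₂‖ ≤ 2 * r ^ 2)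
    (f1 : ‖L w₁ + 4 * δ₁ * u₁‖ ≤ r * β) (f2 : ‖L w₂ + 4 * δ₂ * u₂‖ ≤ r * β) :
    ‖(L u₁ * L w₂ - L u₂ * L w₁) - 4 * (x₁ * δ₂ - x₂ * δ₁) * (u₁ * u₂)‖ ≤ r * β / 4 := by
  have hβ0 : 0 ≤ β := hβ1 ▸ norm_nonneg _
  have hrβ0 : 0 ≤ r * β := mul_nonneg hr0.le hβ0
  set E1 := L u₁ + x₁ * u₁ with hE1
  set E2 := L u₂ + x₂ * u₂ with hE2
  set G1 := L w₁ + 4 * δ₁ * u₁ with hG1
  set G2 := L w₂ + 4 * δ₂ * u₂ with hG2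
  have g1 : (L u₁ * L w₂ - L u₂ * L w₁) - 4 * (x₁ * δ₂ - x₂ * δ₁) * (u₁ * u₂) =
      (E1 * (G2 - 4 * δ₂ * u₂) - (x₁ * u₁) * G2) - (E2 * (G1 - 4 * δ₁ * u₁) - (x₂ * u₂) * G1) := by
    rw [hE1, hE2, hG1, hG2]; ring
  rw [g1]
  have b1 : ‖4 * δ₁ * u₁‖ = β := by rw [norm_mul, hu₁, mul_one, hβ1]
  have b2 : ‖4 * δ₂ * u₂‖ = β := by rw [norm_mul, hu₂, mul_one, hβ2]
  have hrβ : r * β ≤ β := by
    calc r * β ≤ 1 * β := by gcongr; linarith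
      _ = β := one_mul β
  have c1 : ‖G1 - 4 * δ₁ * u₁‖ ≤ β := norm_sub_le3 (f1.trans hrβ) b1.le
  have c2 : ‖G2 - 4 * δ₂ * u₂‖ ≤ β := norm_sub_le3 (f2.trans hrβ) b2.le
  have hrr : r ^ 2 ≤ r / 8 := by nlinarith
  have hA : ∀ E G : ℂ_[p], ‖E‖ ≤ 2 * r ^ 2 → ‖G‖ ≤ β → ‖E * G‖ ≤ r * β / 4 := by
    intro E G hE hG
    rw [norm_mul]
    calc ‖E‖ * ‖G‖ ≤ (2 * r ^ 2) * β := by gcongr
      _ ≤ (2 * (r / 8)) * β := by gcongr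
      _ = r * β / 4 := by ring
  have hB : ∀ X G : ℂ_[p], ‖X‖ = r → ‖G‖ ≤ r * β → ‖X * G‖ ≤ r * β / 4 := by
    intro X G hX hG
    rw [norm_mul, hX]
    calc r * ‖G‖ ≤ r * (r * β) := by gcongr
      _ ≤ (1 / 4) * (r * β) := by gcongr; linarith
      _ = r * β / 4 := by ring
  apply norm_sub_le3
  · apply norm_sub_le3
    · exact hA _ _ e1 c2
    · exact hB _ _ (by rw [norm_mul, hu₁, hx₁, mul_one]) f2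
  · apply norm_sub_le3
    · exact hA _ _ e2 c1
    · exact hB _ _ (by rw [norm_mul, hu₂, hx₂, mul_one]) f1

/-- **The determinant does not vanish.** -/
theorem key2 {x₁ x₂ δ₁ δ₂ u₁ u₂ ν₁ ν₂ w₁ w₂ : ℂ_[p]} {r : ℝ} (hr0 : 0 < r) (hr : r ≤ 1 / 8)
    (hx₁ : ‖x₁‖ = r) (hx₂ : ‖x₂‖ = r) (hx : ‖x₁ - x₂‖ ≤ r / 4)
    (hδ₁ : ‖δ₁‖ ≤ r ^ 2) (hδ₂ : ‖δ₂‖ ≤ r ^ 2)
    (hu₁ : ‖u₁‖ = 1) (hu₂ : ‖u₂‖ = 1)
    (hue₁ : u₁ ^ 2 = 2 * (x₁ + δ₁) * u₁ - 1) (hue₂ : u₂ ^ 2 = 2 * (x₂ + δ₂) * u₂ - 1)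
    (hν₁ : 4 * x₁ * δ₁ = ν₁) (hν₂ : 4 * x₂ * δ₂ = ν₂) (hν0 : ν₁ ≠ 0)
    (hν : (1 - ν₁) * (1 - ν₂) = 1)
    (hw₁ : w₁ = (1 - 2 * δ₁ * u₁) ^ 2 / (1 - ν₁)) (hw₂ : w₂ = (1 - 2 * δ₂ * u₂) ^ 2 / (1 - ν₂)) :
    L u₁ * L w₂ - L u₂ * L w₁ ≠ 0 := by
  have e1 := log_u hL hr hx₁ hδ₁ hu₁ hue₁
  have e2 := log_u hL hr hx₂ hδ₂ hu₂ hue₂
  have f1 := log_w hL hr hx₁ hδ₁ hu₁ hν₁ hw₁
  have f2 := log_w hL hr hx₂ hδ₂ hu₂ hν₂ hw₂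
  have h2 := norm_two_le (p := p)
  have h2' := half_le_norm_two (p := p)
  have h4 : ‖(4 : ℂ_[p])‖ = ‖(2 : ℂ_[p])‖ ^ 2 := by
    rw [← norm_pow]; norm_num
  have h4le : ‖(4 : ℂ_[p])‖ ≤ 1 := by rw [h4]; nlinarith [norm_nonneg (2 : ℂ_[p])]
  have hsum : ν₂ = -ν₁ + ν₁ * ν₂ := by linear_combination -hν
  have hν1 : ‖ν₁‖ = r * ‖4 * δ₁‖ := by
    rw [← hν₁, show 4 * x₁ * δ₁ = x₁ * (4 * δ₁) by ring, norm_mul, hx₁]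
  have hν2 : ‖ν₂‖ = r * ‖4 * δ₂‖ := by
    rw [← hν₂, show 4 * x₂ * δ₂ = x₂ * (4 * δ₂) by ring, norm_mul, hx₂]
  have hν2s : ‖ν₂‖ ≤ 1 / 8 := by
    rw [hν2, norm_mul]
    have : ‖δ₂‖ ≤ 1 := by nlinarith
    nlinarith [norm_nonneg δ₂, norm_nonneg (4 : ℂ_[p]), mul_le_one₀ h4le (norm_nonneg δ₂) this]
  have hνpos : 0 < ‖ν₁‖ := norm_pos_iff.2 hν0
  have hνe : ‖ν₂‖ = ‖ν₁‖ := by
    have h5 : ν₂ = -ν₁ + ν₁ * ν₂ := hsum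
    rw [h5, norm_eq_of_lt, norm_neg]
    rw [norm_neg, norm_mul]
    nlinarith
  set β := ‖4 * δ₁‖ with hβ
  have hβ2 : ‖4 * δ₂‖ = β := by
    rw [hν1, hν2] at hνe
    exact mul_left_cancel₀ hr0.ne' hνe
  have hβpos : 0 < β := by
    rw [hν1] at hνpos
    exact pos_of_mul_pos_right hνpos hr0.le
  rw [hβ2] at f2
  -- main term
  set M := 4 * (x₁ * δ₂ - x₂ * δ₁) * (u₁ * u₂) with hM
  have hMn : r * β / 2 ≤ ‖M‖ := by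
    have g1 : (x₁ * x₂) * (4 * (x₁ * δ₂ - x₂ * δ₁)) =
        -ν₁ * (2 * x₁ ^ 2 + ((x₂ - x₁) * (x₂ + x₁) - x₁ ^ 2 * ν₂)) := by
      have : (x₁ * x₂) * (4 * (x₁ * δ₂ - x₂ * δ₁)) = x₁ ^ 2 * (4 * x₂ * δ₂) - x₂ ^ 2 * (4 * x₁ * δ₁) := by
        ring
      rw [this, hν₁, hν₂]
      linear_combination x₁ ^ 2 * hsum
    have g2 : ‖2 * x₁ ^ 2 + ((x₂ - x₁) * (x₂ + x₁) - x₁ ^ 2 * ν₂)‖ = ‖2 * x₁ ^ 2‖ := by
      apply norm_eq_of_lt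
      have g3 : ‖(x₂ - x₁) * (x₂ + x₁) - x₁ ^ 2 * ν₂‖ ≤ r ^ 2 / 4 := by
        apply norm_sub_le3
        · rw [norm_mul, norm_sub_rev]
          have : ‖x₂ + x₁‖ ≤ r := norm_add_le3 hx₂.le hx₁.le
          nlinarith [norm_nonneg (x₁ - x₂), norm_nonneg (x₂ + x₁)]
        · rw [norm_mul, norm_pow, hx₁]
          nlinarith [norm_nonneg ν₂, sq_nonneg r]
      refine lt_of_le_of_lt g3 ?_
      rw [norm_mul, norm_pow, hx₁]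
      nlinarith [sq_pos_of_pos hr0]
    have g4 := congrArg norm g1
    rw [norm_mul (x₁ * x₂), norm_mul x₁, hx₁, hx₂, norm_mul (-ν₁), norm_neg, g2, norm_mul (2 : ℂ_[p]),
      norm_pow, hx₁] at g4
    have g5 : ‖M‖ = ‖4 * (x₁ * δ₂ - x₂ * δ₁)‖ := by
      rw [hM, norm_mul, norm_mul u₁, hu₁, hu₂, mul_one, mul_one]
    rw [g5]
    have g6 : r * r * ‖4 * (x₁ * δ₂ - x₂ * δ₁)‖ = r * r * (‖ν₁‖ * ‖(2 : ℂ_[p])‖) := by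
      rw [g4]; ring
    have g7 := mul_left_cancel₀ (mul_pos hr0 hr0).ne' g6
    rw [g7, hν1]
    have g8 := mul_pos hr0 hβpos
    calc r * β / 2 = r * β * (1 / 2) := by ring
      _ ≤ r * β * ‖(2 : ℂ_[p])‖ := by gcongr
  have hR := remainder hr0 hr hx₁ hx₂ hu₁ hu₂ hβ.symm hβ2 e1 e2 f1 f2
  rw [← hM] at hR
  intro h0
  rw [h0, zero_sub, norm_neg] at hR
  have := mul_pos hr0 hβpos
  linarith

end Pool.Agent.W289.SL
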