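import Mathlib
import Pool.Agent.W289.SL.Crit
import Pool.Agent.W289.SL.Key2
import Pool.Agent.W289.SL.Alpha
import Pool.Agent.W289.SL.Emb

set_option autoImplicit false

/-!
# The case of real quadratic `F`
-/

namespace Pool.Agent.W289.SL

open NumberField

/-- extension of embeddings -/
lemma exists_ext {p : ℕ} [Fact p.Prime] {F K : Type} [Field F] [Field K] [Algebra F K]
    [Algebra.IsAlgebraic F K] (τ : F →+* ℂ_[p]) :
    ∃ s : K →+* ℂ_[p], s.comp (algebraMap F K) = τ := by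
  let := τ.toAlgebra
  let f : K →ₐ[F] ℂ_[p] := IsAlgClosed.lift
  exact ⟨f, f.comp_algebraMap⟩

/-- in a quadratic extension generated by a square root, the nontrivial automorphism changes the
sign of the root -/
lemma neg_root {K H : Type} [Field K] [Field H] [CharZero K] [Algebra K H]
    (h2 : Module.finrank K H = 2) {α : K}
    (hα : ¬ IsSquare α) {θ : H} (hθ : θ ^ 2 = algebraMap K H α) (τ : H ≃ₐ[K] H) (hτ : τ ≠ 1) :
    τ θ = -θ := by
  have h1 : τ θ ^ 2 = θ ^ 2 := by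
    rw [← map_pow, hθ, AlgEquiv.commutes]
  rcases sq_eq_sq_iff_eq_or_eq_neg.1 h1 with h | h
  · exfalso
    apply hτ
    have hfd : FiniteDimensional K H := Module.finite_of_finrank_pos (by omega)
    have hint : IsIntegral K θ := Algebra.IsIntegral.isIntegral θ
    have htop : IntermediateField.adjoin K {θ} = ⊤ := by
      have h3 : Module.finrank K (IntermediateField.adjoin K {θ}) *
          Module.finrank (IntermediateField.adjoin K {θ}) H = 2 := by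
        rw [Module.finrank_mul_finrank, h2]
      have h4 : Module.finrank K (IntermediateField.adjoin K {θ}) ≠ 1 := by
        intro h5
        rw [IntermediateField.finrank_eq_one_iff, IntermediateField.adjoin_simple_eq_bot_iff,
          IntermediateField.mem_bot] at h5
        obtain ⟨t, ht⟩ := h5
        apply hα
        refine ⟨t, ?_⟩
        apply (algebraMap K H).injective
        rw [← hθ, ← ht, map_mul, pow_two]
      have h5 : Module.finrank K (IntermediateField.adjoin K {θ}) ∣ 2 := Dvd.intro _ h3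
      have h6 : Module.finrank K (IntermediateField.adjoin K {θ}) = 2 :=
        ((Nat.dvd_prime Nat.prime_two).1 h5).resolve_left h4
      rw [h6] at h3
      have h7 : Module.finrank (IntermediateField.adjoin K {θ}) H = 1 := by omega
      exact IntermediateField.finrank_eq_one_iff_eq_top.1 h7
    have htop' : Algebra.adjoin K {θ} = ⊤ := by
      rw [← IntermediateField.adjoin_simple_toSubalgebra_of_isAlgebraic
        (Algebra.IsAlgebraic.isAlgebraic _), htop]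
      rfl
    have h8 : (τ : H →ₐ[K] H) = ((1 : H ≃ₐ[K] H) : H →ₐ[K] H) := by
      apply AlgHom.ext_of_adjoin_eq_top htop'
      intro x hx
      rw [Set.mem_singleton_iff] at hx
      subst hx
      exact h
    ext x
    exact congrArg (fun f : H →ₐ[K] H => f x) h8
  · exact h

/-- the data in `H` -/
theorem units_exist {K H : Type} [Field K] [NumberField K] [Field H] [NumberField H] [Algebra K H]
    (η : (𝓞 K)ˣ) (x δ : 𝓞 K) (hη : 4 * x * δ = 1 - (η : 𝓞 K)) (θ : H)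
    (hθ : θ ^ 2 = algebraMap K H (((x : K) + δ) ^ 2 - 1)) :
    ∃ u w : (𝓞 H)ˣ, ((u : 𝓞 H) : H) = algebraMap K H x + algebraMap K H δ + θ ∧
      ((w : 𝓞 H) : H) = (1 - 2 * algebraMap K H δ * ((u : 𝓞 H) : H)) ^ 2 /
        (1 - 4 * algebraMap K H x * algebraMap K H δ) ∧
      (∀ τ : H ≃ₐ[K] H, τ θ = -θ → τ ((u : 𝓞 H) : H) * ((u : 𝓞 H) : H) = 1 ∧
        τ ((w : 𝓞 H) : H) * ((w : 𝓞 H) : H) = 1) := by
  set X : 𝓞 H := algebraMap (𝓞 K) (𝓞 H) x with hX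
  set D : 𝓞 H := algebraMap (𝓞 K) (𝓞 H) δ with hD
  have hXc : (X : H) = algebraMap K H x := rfl
  have hDc : (D : H) = algebraMap K H δ := rfl
  set E : (𝓞 H)ˣ := Units.map (algebraMap (𝓞 K) (𝓞 H)).toMonoidHom η with hE
  have hEc : ((E : 𝓞 H) : H) = algebraMap K H (η : 𝓞 K) := rfl
  have hint : IsIntegral ℤ θ := by
    have h1 : IsIntegral ℤ (θ ^ 2) := by
      have h2 : θ ^ 2 = algebraMap (𝓞 H) H ((X + D) ^ 2 - 1) := by
        rw [hθ]
        simp only [map_sub, map_pow, map_add, map_one]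
        rfl
      rw [h2]
      exact RingOfIntegers.isIntegral_coe _
    exact h1.of_pow (by norm_num)
  set Θ : 𝓞 H := ⟨θ, hint⟩ with hΘ
  have hΘc : (Θ : H) = θ := rfl
  have hΘ2 : Θ ^ 2 = (X + D) ^ 2 - 1 := by
    apply RingOfIntegers.ext
    change algebraMap (𝓞 H) H (Θ ^ 2) = algebraMap (𝓞 H) H ((X + D) ^ 2 - 1)
    have h3 : algebraMap (𝓞 H) H (Θ ^ 2) = θ ^ 2 := by rw [map_pow]; rfl
    rw [h3, hθ]
    simp only [map_sub, map_pow, map_add, map_one]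
    rfl
  have hEX : 4 * X * D = 1 - (E : 𝓞 H) := by
    have := congrArg (algebraMap (𝓞 K) (𝓞 H)) hη
    rw [map_mul, map_mul, map_sub, map_one, map_ofNat] at this
    exact this
  set u : (𝓞 H)ˣ := ⟨X + D + Θ, X + D - Θ, by linear_combination -hΘ2, by linear_combination -hΘ2⟩ with hu
  have hEE : (E : 𝓞 H) * ((E⁻¹ : (𝓞 H)ˣ) : 𝓞 H) = 1 := by
    rw [← Units.val_mul, mul_inv_cancel, Units.val_one]
  have hv1 : (-X + D + Θ) * ((D - X - Θ) * ((E⁻¹ : (𝓞 H)ˣ) : 𝓞 H)) = 1 := by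
    have : (-X + D + Θ) * (D - X - Θ) = (E : 𝓞 H) := by linear_combination -hΘ2 - hEX
    rw [← mul_assoc, this, hEE]
  set v : (𝓞 H)ˣ := ⟨-X + D + Θ, (D - X - Θ) * ((E⁻¹ : (𝓞 H)ˣ) : 𝓞 H), hv1, by rw [mul_comm]; exact hv1⟩
    with hv
  have huc : ((u : 𝓞 H) : H) = algebraMap K H x + algebraMap K H δ + θ := by
    rw [← hXc, ← hDc, ← hΘc]
    simp [hu]
  have hvc : ((v : 𝓞 H) : H) = -algebraMap K H x + algebraMap K H δ + θ := by
    rw [← hXc, ← hDc, ← hΘc]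
    simp [hv]
  set w : (𝓞 H)ˣ := v ^ 2 * u ^ 2 * E⁻¹ with hw
  have hE0 : algebraMap K H (η : 𝓞 K) ≠ 0 := by
    rw [← hEc]
    exact_mod_cast (Units.ne_zero E)
  have hwc : ((w : 𝓞 H) : H) = ((v : 𝓞 H) : H) ^ 2 * ((u : 𝓞 H) : H) ^ 2 / algebraMap K H (η : 𝓞 K) := by
    rw [eq_div_iff hE0, ← hEc]
    have : w * E = v ^ 2 * u ^ 2 := by rw [hw]; group
    have h2 := congrArg (fun t : (𝓞 H)ˣ => ((t : 𝓞 H) : H)) this
    simpa using h2
  have hηc : algebraMap K H (η : 𝓞 K) = 1 - 4 * algebraMap K H x * algebraMap K H δ := by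
    have h1 := congrArg (fun t : 𝓞 H => (t : H)) hEX
    simp only [map_mul, map_sub, map_one, map_ofNat] at h1
    change 4 * algebraMap K H x * algebraMap K H δ = 1 - algebraMap K H (η : 𝓞 K) at h1
    linear_combination h1
  have hθ' : θ ^ 2 = (algebraMap K H x + algebraMap K H δ) ^ 2 - 1 := by
    rw [hθ]; simp
  refine ⟨u, w, huc, ?_, ?_⟩
  · rw [hwc, hηc]
    congr 1
    rw [← mul_pow]
    have : ((v : 𝓞 H) : H) * ((u : 𝓞 H) : H) = -(1 - 2 * algebraMap K H δ * ((u : 𝓞 H) : H)) := by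
      rw [hvc, huc]
      linear_combination hθ'
    rw [this]
    ring
  · intro τ hτ
    have e1 : τ ((u : 𝓞 H) : H) = algebraMap K H x + algebraMap K H δ - θ := by
      rw [huc, map_add, map_add, AlgEquiv.commutes, AlgEquiv.commutes, hτ, sub_eq_add_neg]
    have e2 : τ ((v : 𝓞 H) : H) = -algebraMap K H x + algebraMap K H δ - θ := by
      rw [hvc, map_add, map_add, map_neg, AlgEquiv.commutes, AlgEquiv.commutes, hτ, sub_eq_add_neg]
    have e3 : τ ((u : 𝓞 H) : H) * ((u : 𝓞 H) : H) = 1 := by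
      rw [e1, huc]
      linear_combination -hθ'
    refine ⟨e3, ?_⟩
    have e4 : τ ((v : 𝓞 H) : H) * ((v : 𝓞 H) : H) = algebraMap K H (η : 𝓞 K) := by
      rw [e2, hvc, hηc]
      linear_combination -hθ'
    rw [hwc, map_div₀, map_mul, map_pow, map_pow, AlgEquiv.commutes]
    have e5 : τ ((v : 𝓞 H) : H) ^ 2 * τ ((u : 𝓞 H) : H) ^ 2 / algebraMap K H (η : 𝓞 K) *
        (((v : 𝓞 H) : H) ^ 2 * ((u : 𝓞 H) : H) ^ 2 / algebraMap K H (η : 𝓞 K)) =
        (τ ((v : 𝓞 H) : H) * ((v : 𝓞 H) : H)) ^ 2 * (τ ((u : 𝓞 H) : H) * ((u : 𝓞 H) : H)) ^ 2 /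
          algebraMap K H (η : 𝓞 K) ^ 2 := by ring
    rw [e5, e3, e4, one_pow, mul_one, div_self (pow_ne_zero _ hE0)]

/-- the values at an embedding -/
lemma emb_data {p : ℕ} [Fact p.Prime] {K : Type} [Field K] {N : ℕ} (hNp : ‖(N : ℂ_[p])‖ = (p : ℝ)⁻¹)
    {x δ : 𝓞 K} (hx : ∃ y : 𝓞 K, x = (N : 𝓞 K) ^ 4 * y ∧ (N : 𝓞 K) ^ 2 ∣ y - 1)
    (hδ : (N : 𝓞 K) ^ 12 ∣ δ) (s : K →+* ℂ_[p]) :
    ‖s x‖ = (p : ℝ)⁻¹ ^ 4 ∧ ‖s δ‖ ≤ ((p : ℝ)⁻¹ ^ 4) ^ 2 ∧
      ∃ z : ℂ_[p], ‖z‖ ≤ (p : ℝ)⁻¹ ^ 4 / 4 ∧ s x = (N : ℂ_[p]) ^ 4 + z := by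
  have hp2 : (2 : ℝ) ≤ p := by exact_mod_cast (Fact.out : p.Prime).two_le
  have hpi : (p : ℝ)⁻¹ ≤ 1 / 2 := by
    rw [one_div]
    exact inv_anti₀ (by norm_num) hp2
  have hpi0 : 0 < (p : ℝ)⁻¹ := by positivity
  obtain ⟨y, hxy, t, ht⟩ := hx
  obtain ⟨e, he⟩ := hδ
  have hsx : s x = (N : ℂ_[p]) ^ 4 + (N : ℂ_[p]) ^ 6 * s t := by
    have h1 : x = (N : 𝓞 K) ^ 4 + (N : 𝓞 K) ^ 6 * t := by
      rw [hxy, sub_eq_iff_eq_add.1 ht]; ring
    have h2 := congrArg (fun z : 𝓞 K => s (algebraMap (𝓞 K) K z)) h1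
    simp only [map_add, map_mul, map_pow, map_natCast] at h2
    exact h2
  have hsδ : s δ = (N : ℂ_[p]) ^ 12 * s e := by
    have h2 := congrArg (fun z : 𝓞 K => s (algebraMap (𝓞 K) K z)) he
    simp only [map_mul, map_pow, map_natCast] at h2
    exact h2
  have ht1 := norm_emb_le s t
  have he1 := norm_emb_le s e
  have hz : ‖(N : ℂ_[p]) ^ 6 * s t‖ ≤ (p : ℝ)⁻¹ ^ 4 / 4 := by
    rw [norm_mul, norm_pow, hNp]
    have h3 : (p : ℝ)⁻¹ ^ 2 ≤ 1 / 4 := by nlinarith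
    calc (p : ℝ)⁻¹ ^ 6 * ‖s t‖ ≤ (p : ℝ)⁻¹ ^ 6 * 1 := by gcongr
      _ = (p : ℝ)⁻¹ ^ 4 * (p : ℝ)⁻¹ ^ 2 := by ring
      _ ≤ (p : ℝ)⁻¹ ^ 4 * (1 / 4) := by gcongr
      _ = _ := by ring
  refine ⟨?_, ?_, ⟨_, hz, hsx⟩⟩
  · rw [hsx, norm_eq_of_lt, norm_pow, hNp]
    refine lt_of_le_of_lt hz ?_
    rw [norm_pow, hNp]
    have : 0 < (p : ℝ)⁻¹ ^ 4 := by positivity
    linarith
  · rw [hsδ, norm_mul, norm_pow, hNp]
    calc (p : ℝ)⁻¹ ^ 12 * ‖s e‖ ≤ (p : ℝ)⁻¹ ^ 12 * 1 := by gcongr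
      _ = ((p : ℝ)⁻¹ ^ 4) ^ 2 * (p : ℝ)⁻¹ ^ 4 := by ring
      _ ≤ ((p : ℝ)⁻¹ ^ 4) ^ 2 * 1 := by
        gcongr
        exact pow_le_one₀ hpi0.le (by linarith)
      _ = _ := by ring

/-- **Main theorem for `d = 2`.** -/
theorem main2 (P : Finset ℕ) (hP : ∀ p ∈ P, p.Prime) (F K : Type) [Field F] [NumberField F]
    [IsTotallyReal F] [Field K] [NumberField K] [IsTotallyComplex K] [Algebra F K]
    (hF : Module.finrank ℚ F = 2) (hFK : Module.finrank F K = 2)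
    (T : Finset K) (hT : (0 : K) ∉ T) :
    ∃ α : K, ¬ IsSquare α ∧ (∀ β ∈ T, ¬ IsSquare (β * α)) ∧
      (∀ c : K ≃ₐ[F] K, c ≠ 1 → ¬ IsSquare (α * c α)) ∧
      ∀ (H : Type) [Field H] [NumberField H] [Algebra K H] (θ : H),
        Module.finrank K H = 2 → θ ^ 2 = algebraMap K H α →
        ∀ (p : ℕ) [Fact p.Prime], p ∈ P → ∀ S : Set (K →+* ℂ_[p]), IsCMType p F K S →
          ∀ χ : (H ≃ₐ[K] H) →* ℂ_[p]ˣ, χ ≠ 1 → SigmaLeopoldt p K H S χ := by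
  classical
  have hquad : Algebra.IsQuadraticExtension F K := ⟨hFK⟩
  have hcard : Nat.card (K ≃ₐ[F] K) = 2 := by
    rw [IsGalois.card_aut_eq_finrank, hFK]
  obtain ⟨c, hc⟩ : ∃ c : K ≃ₐ[F] K, c ≠ 1 := by
    have : Nontrivial (K ≃ₐ[F] K) := by
      rw [← Finite.one_lt_card_iff_nontrivial, hcard]; norm_num
    exact exists_ne 1
  have hcuniq : ∀ c' : K ≃ₐ[F] K, c' ≠ 1 → c' = c := by
    intro c' hc'
    have : Fintype.card (K ≃ₐ[F] K) = 2 := by rw [← Nat.card_eq_fintype_card, hcard]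
    obtain ⟨a, b, hab, huniv⟩ := (Nat.card_eq_two_iff).1 hcard
    have h1 : ∀ x : K ≃ₐ[F] K, x = a ∨ x = b := fun x => by
      have : x ∈ ({a, b} : Set (K ≃ₐ[F] K)) := huniv ▸ Set.mem_univ x
      simpa using this
    rcases h1 1 with h | h <;> rcases h1 c with h' | h' <;> rcases h1 c' with h'' | h'' <;>
      simp_all
  have hcne : ∃ z, (c : K →+* K) z ≠ z := by
    by_contra hcon
    push Not at hcon
    exact hc (AlgEquiv.ext hcon)
  obtain ⟨ε, hε⟩ := exists_unit (F := F) hF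
  set N : ℕ := ∏ p ∈ P, p with hN
  have hN0 : N ≠ 0 := Finset.prod_ne_zero_iff.2 fun p hp => (hP p hp).ne_zero
  set ηF : (𝓞 F)ˣ := ε ^ 2 with hηF
  set η : (𝓞 K)ˣ := Units.map (algebraMap (𝓞 F) (𝓞 K)).toMonoidHom ηF with hη
  obtain ⟨x, δ, n, hn, hx0, hxδ, hx, hδ, hTsq, hsq, hcsq⟩ :=
    exists_alpha (c : K →+* K) hcne N hN0 T hT η
  refine ⟨((x : K) + δ) ^ 2 - 1, hsq, hTsq, ?_, ?_⟩
  · intro c' hc'
    rw [hcuniq c' hc']
    exact hcsq
  intro H _ _ _ θ h2 hθ p hpF hpP S hS χ hχ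
  have hNp : ‖(N : ℂ_[p])‖ = (p : ℝ)⁻¹ := by
    rw [hN, ← Finset.mul_prod_erase P (fun q => q) hpP]
    push_cast
    rw [norm_mul, norm_p]
    have h3 : ‖((∏ q ∈ P.erase p, q : ℕ) : ℂ_[p])‖ = 1 := by
      rw [norm_natCast_eq, Padic.norm_natCast_eq_one_iff]
      apply Nat.Coprime.prod_right
      intro q hq
      exact (Nat.coprime_primes hpF.out (hP q (Finset.mem_of_mem_erase hq))).2
        (Finset.ne_of_mem_erase hq).symm
    push_cast at h3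
    rw [h3, mul_one]
  have hd : Module.finrank ℚ K = 2 * 2 := by
    rw [← Module.finrank_mul_finrank ℚ F K, hF, hFK]
  apply sigmaLeopoldt_of h2 2 hd S χ hχ
  intro L hL τ hτ
  obtain ⟨u, w, hu, hw, huw⟩ := units_exist (H := H) (η ^ n) x δ hxδ θ hθ
  obtain ⟨hu1, hw1⟩ := huw τ (neg_root h2 hsq hθ τ hτ)
  -- the embeddings
  obtain ⟨τ₁, τ₂, hτ12⟩ := exists_two_emb (p := p) hF
  have hext : ∀ t : F →+* ℂ_[p], ∃ s : K →+* ℂ_[p], s.comp (algebraMap F K) = t ∧ s ∈ S := by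
    intro t
    obtain ⟨s, hs⟩ := exists_ext (K := K) t
    by_cases hsS : s ∈ S
    · exact ⟨s, hs, hsS⟩
    · refine ⟨s.comp (c : K →+* K), ?_, ?_⟩
      · rw [← hs]
        ext z
        simp
      · by_contra hcon
        exact hsS ((hS c hc s).2 hcon)
  obtain ⟨s₁, hs₁, hs₁S⟩ := hext τ₁
  obtain ⟨s₂, hs₂, hs₂S⟩ := hext τ₂
  obtain ⟨σ₁, hσ₁⟩ := exists_ext (K := H) s₁
  obtain ⟨σ₂, hσ₂⟩ := exists_ext (K := H) s₂
  have ev1 : ∀ z : K, σ₁ ((algebraMap K H) z) = s₁ z := fun z => by rw [← hσ₁]; rfl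
  have ev2 : ∀ z : K, σ₂ ((algebraMap K H) z) = s₂ z := fun z => by rw [← hσ₂]; rfl
  -- the determinant
  have hdet : L (σ₁ (u : 𝓞 H)) * L (σ₂ (w : 𝓞 H)) - L (σ₂ (u : 𝓞 H)) * L (σ₁ (w : 𝓞 H)) ≠ 0 := by
    obtain ⟨hx1, hd1, z1, hz1, hxz1⟩ := emb_data hNp hx hδ s₁
    obtain ⟨hx2, hd2, z2, hz2, hxz2⟩ := emb_data hNp hx hδ s₂
    have hp2 : (2 : ℝ) ≤ p := by exact_mod_cast hpF.out.two_le
    have hpi : (p : ℝ)⁻¹ ≤ 1 / 2 := by
      rw [one_div]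
      exact inv_anti₀ (by norm_num) hp2
    have hpi0 : 0 < (p : ℝ)⁻¹ := by positivity
    have hr : (p : ℝ)⁻¹ ^ 4 ≤ 1 / 8 := by
      calc (p : ℝ)⁻¹ ^ 4 ≤ (1 / 2) ^ 4 := by gcongr
        _ ≤ 1 / 8 := by norm_num
    have hue : ((u : 𝓞 H) : H) ^ 2 = 2 * (algebraMap K H x + algebraMap K H δ) * ((u : 𝓞 H) : H) - 1 := by
      have hθ' : θ ^ 2 = (algebraMap K H x + algebraMap K H δ) ^ 2 - 1 := by
        rw [hθ]; simp
      rw [hu]
      linear_combination hθ'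
    have hη1 : ∀ s : K →+* ℂ_[p], 1 - 4 * s x * s δ = s (((η ^ n : (𝓞 K)ˣ) : 𝓞 K) : K) := by
      intro s
      have h3 := congrArg (fun z : 𝓞 K => s (algebraMap (𝓞 K) K z)) hxδ
      simp only [map_mul, map_sub, map_one, map_ofNat] at h3
      linear_combination -h3
    have hη2 : ∀ (s : K →+* ℂ_[p]) (t : F →+* ℂ_[p]), s.comp (algebraMap F K) = t →
        s (((η ^ n : (𝓞 K)ˣ) : 𝓞 K) : K) = (t (ε : 𝓞 F)) ^ (2 * n) := by
      intro s t hst
      have h3 : (((η ^ n : (𝓞 K)ˣ) : 𝓞 K) : K) = algebraMap F K ((ε : 𝓞 F) : F) ^ (2 * n) := by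
        change algebraMap (𝓞 K) K ((η ^ n : (𝓞 K)ˣ) : 𝓞 K) = _
        have h5 : ((η : (𝓞 K)ˣ) : 𝓞 K) = algebraMap (𝓞 F) (𝓞 K) ((ε : 𝓞 F) ^ 2) := rfl
        rw [Units.val_pow_eq_pow_val, map_pow, h5, map_pow, map_pow, pow_mul]
        rfl
      rw [h3, map_pow, ← hst]
      rfl
    refine key2 hL (x₁ := s₁ x) (x₂ := s₂ x) (δ₁ := s₁ δ) (δ₂ := s₂ δ)
      (ν₁ := 4 * s₁ x * s₁ δ) (ν₂ := 4 * s₂ x * s₂ δ) (r := (p : ℝ)⁻¹ ^ 4)
      (by positivity) hr hx1 hx2 ?_ hd1 hd2 (norm_emb_unit σ₁ u) (norm_emb_unit σ₂ u) ?_ ?_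
      rfl rfl ?_ ?_ ?_ ?_
    · rw [hxz1, hxz2, add_sub_add_left_eq_sub]
      exact norm_sub_le3 hz1 hz2
    · have h3 := congrArg σ₁ hue
      simp only [map_mul, map_sub, map_one, map_ofNat, map_pow, map_add, ev1] at h3
      exact h3
    · have h3 := congrArg σ₂ hue
      simp only [map_mul, map_sub, map_one, map_ofNat, map_pow, map_add, ev2] at h3
      exact h3
    · intro h0
      have h3 := hη1 s₁
      rw [h0, sub_zero, hη2 s₁ τ₁ hs₁, ← map_pow] at h3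
      have h4 : ((ε : 𝓞 F) : F) ^ (2 * n) = 1 := τ₁.injective (by rw [← h3, map_one])
      apply hε (2 * n) (by omega)
      apply Units.ext
      apply RingOfIntegers.ext
      change algebraMap (𝓞 F) F _ = algebraMap (𝓞 F) F _
      rw [Units.val_pow_eq_pow_val, map_pow, Units.val_one, map_one]
      exact h4
    · rw [hη1, hη1, hη2 s₁ τ₁ hs₁, hη2 s₂ τ₂ hs₂, ← mul_pow, pow_mul,
        prod_two_emb hF τ₁ τ₂ hτ12 ε, one_pow]
    · rw [hw, map_div₀]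
      simp only [map_mul, map_sub, map_one, map_ofNat, map_pow, ev1]
    · rw [hw, map_div₀]
      simp only [map_mul, map_sub, map_one, map_ofNat, map_pow, ev2]
  refine ⟨![u, w], ![σ₁, σ₂], ?_, ?_, ?_⟩
  · intro i
    fin_cases i
    · exact hu1
    · exact hw1
  · intro j
    fin_cases j
    · change σ₁.comp (algebraMap K H) ∈ S
      rw [hσ₁]; exact hs₁S
    · change σ₂.comp (algebraMap K H) ∈ S
      rw [hσ₂]; exact hs₂S
  · intro a ha
    have h3 := ha 0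
    have h4 := ha 1
    rw [Fin.sum_univ_two] at h3 h4
    change a 0 * L (σ₁ (u : 𝓞 H)) + a 1 * L (σ₁ (w : 𝓞 H)) = 0 at h3
    change a 0 * L (σ₂ (u : 𝓞 H)) + a 1 * L (σ₂ (w : 𝓞 H)) = 0 at h4
    have h5 : a 0 = 0 := by
      apply (mul_eq_zero.1 _).resolve_right hdet
      linear_combination L (σ₂ (w : 𝓞 H)) * h3 - L (σ₁ (w : 𝓞 H)) * h4
    have h6 : a 1 = 0 := by
      apply (mul_eq_zero.1 _).resolve_right hdet
      linear_combination L (σ₁ (u : 𝓞 H)) * h4 - L (σ₂ (u : 𝓞 H)) * h3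
    funext i
    fin_cases i
    · exact h5
    · exact h6

end Pool.Agent.W289.SL
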